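import Mathlib

/-!
# Separating but not discriminating surjections onto the free metabelian group of rank two

The group `T` below is a subgroup of the affine group `V ⋊ B`, where `B` is free abelian of rank
three on `x, y, z` and `V` is the cube of the rational group ring `R` of `B`.  It is generated by
`x = (x; 0, 0, 0)`, `y = (y; 1, 0, 0)`, `z = (z; 0, 0, 0)` and the translations by
`(0, e n, 0)` and `(0, 0, e' n)`, where `2 ^ n * e n` is the product of the
`z x ^ (-l) - 1` and `2 ^ n * e' n` that of the `z x ^ l - 1` for `1 ≤ l ≤ n`.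
A surjection of `T` onto the free metabelian group of rank two induces a surjection of `B` onto
`ℤ ^ 2`; if no `z x ^ (-l)` is in its kernel then the image of `e 0` is divisible by all powers
of two, hence trivial, and similarly for `e' 0`.  Both kernels cannot occur together.
-/

set_option autoImplicit false

open scoped commutatorElement

namespace Pool.Agent.Results.MP_2b96c2_al.SeparatingNotDiscriminating

/-- A set of homomorphisms is separating if every non-identity element survives under one of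
them. -/
def IsSeparating {A B : Type} [Group A] [Group B] (F : Set (A →* B)) : Prop :=
  ∀ a : A, a ≠ 1 → ∃ f ∈ F, f a ≠ 1

/-- A set of homomorphisms is discriminating if any finitely many non-identity elements survive
simultaneously under one of them. -/
def IsDiscriminating {A B : Type} [Group A] [Group B] (F : Set (A →* B)) : Prop :=
  ∀ S : Finset A, (∀ a ∈ S, a ≠ 1) → ∃ f ∈ F, ∀ a ∈ S, f a ≠ 1

/-- The rational group ring of an additive group. -/
abbrev GR (B : Type) [AddCommGroup B] : Type := AddMonoidAlgebra ℚ B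

/-- The group element `b` as an element of the group ring. -/
noncomputable abbrev mon {B : Type} [AddCommGroup B] (b : B) : GR B := AddMonoidAlgebra.single b 1

lemma mon_add {B : Type} [AddCommGroup B] (b c : B) : mon (b + c) = mon b * mon c := by
  simp [mon]

lemma mon_zero {B : Type} [AddCommGroup B] : mon (0 : B) = 1 := rfl

lemma mon_inj {B : Type} [AddCommGroup B] {b c : B} (h : mon b = mon c) : b = c :=
  (AddMonoidAlgebra.single_left_inj one_ne_zero).mp h

lemma mon_ne_zero {B : Type} [AddCommGroup B] (b : B) : mon b ≠ 0 := by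
  simp [mon]

lemma mon_sub_one_ne_zero {B : Type} [AddCommGroup B] {b : B} (hb : b ≠ 0) : mon b - 1 ≠ 0 := by
  intro h
  apply hb
  apply mon_inj
  rw [mon_zero]
  exact sub_eq_zero.mp h

/-- Pairs (linear part, translation part): the group of affine maps `v ↦ b v + w`, where `b` runs
over the group `B` and `w` over a module over the group ring. -/
@[ext]
structure Aff (B V : Type) [AddCommGroup B] [AddCommGroup V] [Module (GR B) V] where
  lin : B
  tr : V

namespace Aff

variable {B V : Type} [AddCommGroup B] [AddCommGroup V] [Module (GR B) V]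

noncomputable instance : Mul (Aff B V) := ⟨fun s t => ⟨s.lin + t.lin, s.tr + mon s.lin • t.tr⟩⟩
instance : One (Aff B V) := ⟨⟨0, 0⟩⟩
noncomputable instance : Inv (Aff B V) := ⟨fun s => ⟨-s.lin, -(mon (-s.lin) • s.tr)⟩⟩

@[simp] lemma mul_lin (s t : Aff B V) : (s * t).lin = s.lin + t.lin := rfl
@[simp] lemma mul_tr (s t : Aff B V) : (s * t).tr = s.tr + mon s.lin • t.tr := rfl
@[simp] lemma one_lin : (1 : Aff B V).lin = 0 := rfl
@[simp] lemma one_tr : (1 : Aff B V).tr = 0 := rfl
@[simp] lemma inv_lin (s : Aff B V) : (s⁻¹).lin = -s.lin := rfl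
@[simp] lemma inv_tr (s : Aff B V) : (s⁻¹).tr = -(mon (-s.lin) • s.tr) := rfl

noncomputable instance : Group (Aff B V) :=
  Group.ofLeftAxioms
    (fun a b c => by
      ext
      · simp [add_assoc]
      · simp only [mul_tr, mul_lin, mon_add, mul_smul, smul_add, add_assoc])
    (fun a => by
      ext
      · simp
      · simp only [mul_tr, one_tr, one_lin, mon_zero, one_smul, zero_add])
    (fun a => by
      ext
      · simp
      · simp only [mul_tr, inv_tr, inv_lin, one_tr, neg_add_cancel])

/-- The linear part as a homomorphism. -/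
def linHom : Aff B V →* Multiplicative B where
  toFun s := Multiplicative.ofAdd s.lin
  map_one' := rfl
  map_mul' _ _ := rfl

lemma comm_iff (s t : Aff B V) :
    s * t = t * s ↔ (mon s.lin - 1) • t.tr = (mon t.lin - 1) • s.tr := by
  rw [Aff.ext_iff]
  simp only [mul_lin, mul_tr, add_comm s.lin t.lin, true_and, sub_smul, one_smul]
  constructor
  · intro h
    rw [sub_eq_sub_iff_add_eq_add, add_comm _ s.tr, add_comm _ t.tr]
    exact h
  · intro h
    rw [sub_eq_sub_iff_add_eq_add, add_comm _ s.tr, add_comm _ t.tr] at h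
    exact h

/-- Translations commute. -/
lemma comm_of_lin_zero {s t : Aff B V} (hs : s.lin = 0) (ht : t.lin = 0) : s * t = t * s := by
  rw [comm_iff, hs, ht, mon_zero, sub_self, zero_smul, zero_smul]

/-- Commutation is transitive on nontrivial elements. -/
lemma comm_trans (hV : ∀ (b : B) (v : V), b ≠ 0 → (mon b - 1) • v = 0 → v = 0)
    {t r s : Aff B V} (ht : t ≠ 1) (hr : t * r = r * t) (hs : t * s = s * t) :
    r * s = s * r := by
  rw [comm_iff] at hr hs ⊢
  by_cases hl : t.lin = 0
  · have htr : t.tr ≠ 0 := by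
      intro h
      exact ht (Aff.ext hl h)
    rw [hl, mon_zero, sub_self, zero_smul] at hr hs
    have h1 : r.lin = 0 := by
      by_contra h
      exact htr (hV _ _ h hr.symm)
    have h2 : s.lin = 0 := by
      by_contra h
      exact htr (hV _ _ h hs.symm)
    rw [h1, h2, mon_zero, sub_self, zero_smul, zero_smul]
  · rw [← sub_eq_zero]
    apply hV t.lin _ hl
    rw [smul_sub, sub_eq_zero, smul_smul, smul_smul, mul_comm _ (mon r.lin - 1),
      mul_comm _ (mon s.lin - 1), mul_smul, mul_smul, hr, hs, smul_smul, smul_smul, mul_comm]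

/-- A map which is semilinear along a homomorphism of the linear parts induces a homomorphism of
affine groups. -/
def map {C W : Type} [AddCommGroup C] [AddCommGroup W] [Module (GR C) W]
    (σ : B →+ C) (ψ : V →+ W) (h : ∀ (b : B) (v : V), ψ (mon b • v) = mon (σ b) • ψ v) :
    Aff B V →* Aff C W where
  toFun s := ⟨σ s.lin, ψ s.tr⟩
  map_one' := by ext <;> simp
  map_mul' s t := by ext <;> simp [h]

end Aff


/-- Exponent group of the model of the free metabelian group of rank two. -/
abbrev A2 : Type := ℤ × ℤ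

/-- The ambient affine group of the model. -/
abbrev AffA : Type := Aff A2 (GR A2)

/-- First generator of the model. -/
noncomputable def genP : AffA := ⟨(1, 0), 0⟩
/-- Second generator of the model. -/
noncomputable def genQ : AffA := ⟨(0, 1), 1⟩

/-- The generator of the derived group of the model. -/
noncomputable def kap : GR A2 := mon (1, 0) - 1

lemma kap_ne_zero : kap ≠ 0 := mon_sub_one_ne_zero (by simp)

lemma comm_PQ : ⁅genP, genQ⁆ = ⟨0, kap⟩ := by
  rw [commutatorElement_def]
  ext1
  · simp [genP, genQ]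
  · simp only [genP, genQ, Aff.mul_tr, Aff.mul_lin, Aff.inv_tr, Aff.inv_lin, kap, smul_eq_mul,
      mul_neg, mul_one, zero_add, mul_zero, neg_zero, add_zero]
    rw [← mon_add]
    simp only [Prod.mk_add_mk, Prod.neg_mk]
    norm_num
    rw [← mon_zero, sub_eq_add_neg]
    rfl

/-- Derived length at most two. -/
lemma derived_two {B V : Type} [AddCommGroup B] [AddCommGroup V] [Module (GR B) V] :
    derivedSeries (Aff B V) 2 = ⊥ := by
  have h1 : derivedSeries (Aff B V) 1 ≤ (Aff.linHom (B := B) (V := V)).ker := by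
    rw [derivedSeries_one]
    exact Abelianization.commutator_subset_ker _
  rw [derivedSeries_succ, eq_bot_iff, Subgroup.commutator_le]
  intro g hg h hh
  rw [Subgroup.mem_bot, commutatorElement_eq_one_iff_mul_comm]
  exact Aff.comm_of_lin_zero (congrArg Multiplicative.toAdd (h1 hg))
    (congrArg Multiplicative.toAdd (h1 hh))

lemma derived_two_of_injective {B V : Type} [AddCommGroup B] [AddCommGroup V] [Module (GR B) V]
    {G : Type} [Group G] (f : G →* Aff B V) (hf : Function.Injective f) :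
    derivedSeries G 2 = ⊥ := by
  rw [eq_bot_iff]
  intro g hg
  have h1 : f g ∈ derivedSeries (Aff B V) 2 :=
    map_derivedSeries_le_derivedSeries f 2 (Subgroup.mem_map_of_mem f hg)
  rw [derived_two, Subgroup.mem_bot] at h1
  rw [Subgroup.mem_bot]
  exact hf (by rw [h1, map_one])

section Magnus

variable {Γ : Type} [Group Γ] (a b : Γ)

/-- The conjugates of the commutator of the two generators. -/
def uu (g : A2) : Γ := (a ^ g.1 * b ^ g.2) * ⁅a, b⁆ * (a ^ g.1 * b ^ g.2)⁻¹

lemma exists_exponents (hgen : Subgroup.closure {a, b} = ⊤) (g : Γ) :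
    ∃ i j : ℤ, Abelianization.of g = Abelianization.of (a ^ i * b ^ j) := by
  have hg : g ∈ Subgroup.closure {a, b} := by rw [hgen]; trivial
  induction hg using Subgroup.closure_induction with
  | mem x hx =>
    rcases hx with rfl | rfl
    · exact ⟨1, 0, by simp⟩
    · exact ⟨0, 1, by simp⟩
  | one => exact ⟨0, 0, by simp⟩
  | mul x y _ _ hx hy =>
    obtain ⟨i, j, h1⟩ := hx
    obtain ⟨i', j', h2⟩ := hy
    refine ⟨i + i', j + j', ?_⟩
    rw [map_mul, h1, h2]
    simp only [map_mul, map_zpow, zpow_add]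
    exact mul_mul_mul_comm _ _ _ _
  | inv x _ hx =>
    obtain ⟨i, j, h1⟩ := hx
    refine ⟨-i, -j, ?_⟩
    rw [map_inv, h1]
    simp only [map_mul, map_zpow, zpow_neg, mul_inv, map_inv]

lemma conj_eq_of_ab_eq (hmet : ∀ c ∈ commutator Γ, ∀ d ∈ commutator Γ, c * d = d * c)
    {w w' : Γ} (h : Abelianization.of w = Abelianization.of w') :
    w * ⁅a, b⁆ * w⁻¹ = w' * ⁅a, b⁆ * w'⁻¹ := by
  have hk : w'⁻¹ * w ∈ commutator Γ := by
    rw [← Abelianization.ker_of Γ, MonoidHom.mem_ker, map_mul, map_inv, h, inv_mul_cancel]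
  have hc : ⁅a, b⁆ ∈ commutator Γ := Subgroup.commutator_mem_commutator trivial trivial
  have h1 := hmet _ hk _ hc
  have h2 : w * ⁅a, b⁆ = w' * (⁅a, b⁆ * (w'⁻¹ * w)) := by
    rw [← h1]; group
  rw [h2]; group

lemma conj_uu (hmet : ∀ c ∈ commutator Γ, ∀ d ∈ commutator Γ, c * d = d * c)
    {g : Γ} {i j : ℤ} (hg : Abelianization.of g = Abelianization.of (a ^ i * b ^ j)) (x : A2) :
    g * uu a b x * g⁻¹ = uu a b ((i, j) + x) := by
  have h1 : g * uu a b x * g⁻¹ =
      (g * (a ^ x.1 * b ^ x.2)) * ⁅a, b⁆ * (g * (a ^ x.1 * b ^ x.2))⁻¹ := by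
    unfold uu
    group
  rw [h1]
  unfold uu
  apply conj_eq_of_ab_eq a b hmet
  rw [map_mul, hg]
  simp only [map_mul, map_zpow, Prod.fst_add, Prod.snd_add, zpow_add]
  exact mul_mul_mul_comm _ _ _ _

lemma commutator_le_closure_uu (hgen : Subgroup.closure {a, b} = ⊤)
    (hmet : ∀ c ∈ commutator Γ, ∀ d ∈ commutator Γ, c * d = d * c) :
    commutator Γ ≤ Subgroup.closure (Set.range (uu a b)) := by
  set N := Subgroup.closure (Set.range (uu a b)) with hN
  have hnorm : N.Normal := by
    constructor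
    intro n hn g
    obtain ⟨i, j, hg⟩ := exists_exponents a b hgen g
    induction hn using Subgroup.closure_induction with
    | mem x hx =>
      obtain ⟨y, rfl⟩ := hx
      rw [conj_uu a b hmet hg]
      exact Subgroup.subset_closure ⟨_, rfl⟩
    | one => simp
    | mul x y _ _ hx hy =>
      have : g * (x * y) * g⁻¹ = (g * x * g⁻¹) * (g * y * g⁻¹) := by group
      rw [this]
      exact N.mul_mem hx hy
    | inv x _ hx =>
      have : g * x⁻¹ * g⁻¹ = (g * x * g⁻¹)⁻¹ := by group
      rw [this]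
      exact N.inv_mem hx
  have hab : ⁅a, b⁆ ∈ N := by
    apply Subgroup.subset_closure
    exact ⟨(0, 0), by simp [uu]⟩
  let q := QuotientGroup.mk' N
  have hq : q a * q b = q b * q a := by
    rw [← commutatorElement_eq_one_iff_mul_comm, ← map_commutatorElement]
    exact (QuotientGroup.eq_one_iff _).mpr hab
  have h1 : ∀ g : Γ, q g * q a = q a * q g ∧ q g * q b = q b * q g := by
    intro g
    have hg : g ∈ Subgroup.closure {a, b} := by rw [hgen]; trivial
    induction hg using Subgroup.closure_induction with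
    | mem x hx =>
      rcases hx with rfl | rfl
      · exact ⟨rfl, hq⟩
      · exact ⟨hq.symm, rfl⟩
    | one => simp
    | mul x y _ _ hx hy =>
      rw [map_mul]
      exact ⟨(Commute.mul_left (show Commute (q x) (q a) from hx.1) hy.1),
        (Commute.mul_left (show Commute (q x) (q b) from hx.2) hy.2)⟩
    | inv x _ hx =>
      rw [map_inv]
      exact ⟨Commute.inv_left (show Commute (q x) (q a) from hx.1),
        Commute.inv_left (show Commute (q x) (q b) from hx.2)⟩
  have h2 : ∀ g h : Γ, q g * q h = q h * q g := by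
    intro g h
    have hh : h ∈ Subgroup.closure {a, b} := by rw [hgen]; trivial
    induction hh using Subgroup.closure_induction with
    | mem x hx =>
      rcases hx with rfl | rfl
      · exact (h1 g).1
      · exact (h1 g).2
    | one => simp
    | mul x y _ _ hx hy =>
      rw [map_mul]
      exact Commute.mul_right (show Commute (q g) (q x) from hx) hy
    | inv x _ hx =>
      rw [map_inv]
      exact Commute.inv_right (show Commute (q g) (q x) from hx)
  rw [commutator_def, Subgroup.commutator_le]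
  intro g _ h _
  rw [← QuotientGroup.eq_one_iff (N := N)]
  change q ⁅g, h⁆ = 1
  rw [map_commutatorElement, commutatorElement_eq_one_iff_mul_comm]
  exact h2 g h

/-- A metabelian group generated by two elements which map to the two generators of the model
embeds in the model. -/
lemma magnus_injective (hgen : Subgroup.closure {a, b} = ⊤)
    (hmet : ∀ c ∈ commutator Γ, ∀ d ∈ commutator Γ, c * d = d * c)
    (θ : Γ →* AffA) (ha : θ a = genP) (hb : θ b = genQ) : Function.Injective θ := by
  rw [injective_iff_map_eq_one]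
  intro g hg
  let _ : CommGroup (commutator Γ) :=
    { (inferInstance : Group (commutator Γ)) with
      mul_comm := fun x y => Subtype.ext (hmet _ x.2 _ y.2) }
  have hlinC : ∀ c : commutator Γ, (θ c).lin = 0 := by
    intro c
    have : (c : Γ) ∈ (Aff.linHom.comp θ).ker := Abelianization.commutator_subset_ker _ c.2
    exact congrArg Multiplicative.toAdd this
  have hab : ⁅a, b⁆ ∈ commutator Γ := Subgroup.commutator_mem_commutator trivial trivial
  have huC : ∀ x : A2, uu a b x ∈ commutator Γ := fun x =>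
    Subgroup.Normal.conj_mem inferInstance _ hab _
  let Ψ : (A2 →₀ ℤ) →+ Additive (commutator Γ) :=
    Finsupp.liftAddHom (fun x => zmultiplesHom _ (Additive.ofMul ⟨uu a b x, huC x⟩))
  let τ : Additive (commutator Γ) →+ GR A2 :=
    { toFun := fun c => (θ (c.toMul : commutator Γ)).tr
      map_zero' := by simp
      map_add' := fun c d => by
        have h0 := hlinC c.toMul
        rw [toMul_add, Subgroup.coe_mul, map_mul, Aff.mul_tr, h0, mon_zero, one_smul] }
  let Λ : (A2 →₀ ℤ) →+ GR A2 :=
    Finsupp.liftAddHom (fun x => zmultiplesHom _ (mon x))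
  have hpow : ∀ x : A2, θ (a ^ x.1 * b ^ x.2) = genP ^ x.1 * genQ ^ x.2 := by
    intro x
    rw [map_mul, map_zpow, map_zpow, ha, hb]
  have hlinpow : ∀ x : A2, (genP ^ x.1 * genQ ^ x.2).lin = x := by
    intro x
    have : Aff.linHom (genP ^ x.1 * genQ ^ x.2) = Multiplicative.ofAdd x := by
      rw [map_mul, map_zpow, map_zpow]
      apply Multiplicative.toAdd.injective
      simp only [toAdd_mul, toAdd_zpow]
      change x.1 • ((1 : ℤ), (0 : ℤ)) + x.2 • ((0 : ℤ), (1 : ℤ)) = x
      ext <;> simp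
    exact congrArg Multiplicative.toAdd this
  have hθu : ∀ x : A2, (θ (uu a b x)).tr = mon x * kap := by
    intro x
    unfold uu
    rw [map_mul, map_mul, map_inv, map_commutatorElement, hpow, ha, hb, comm_PQ]
    set w := genP ^ x.1 * genQ ^ x.2 with hw
    have hwl : w.lin = x := hlinpow x
    simp only [Aff.mul_tr, Aff.mul_lin, Aff.inv_tr, hwl, add_zero, smul_eq_mul]
    have h1 : mon x * mon (-x) = 1 := by rw [← mon_add, add_neg_cancel, mon_zero]
    linear_combination (-w.tr) * h1
  have hτΨ : ∀ r, τ (Ψ r) = Λ r * kap := by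
    have : τ.comp Ψ = (AddMonoidHom.mulRight kap).comp Λ := by
      apply Finsupp.addHom_ext
      intro x n
      simp only [Ψ, Λ, AddMonoidHom.comp_apply, Finsupp.liftAddHom_apply_single,
        zmultiplesHom_apply, AddMonoidHom.mulRight_apply, map_zsmul]
      congr 1
      exact hθu x
    intro r
    exact DFunLike.congr_fun this r
  have hΛ : ∀ r, Λ r = 0 → r = 0 := by
    intro r hr
    have hcoef : ∀ (r : A2 →₀ ℤ) (x : A2), (Λ r).coeff x = (r x : ℚ) := by
      intro r x
      induction r using Finsupp.induction_linear with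
      | zero => simp
      | add f g hf hg => rw [map_add, AddMonoidAlgebra.coeff_add, Finsupp.add_apply, hf, hg,
          Finsupp.add_apply, Int.cast_add]
      | single y n =>
        simp only [Λ, Finsupp.liftAddHom_apply_single, zmultiplesHom_apply,
          AddMonoidAlgebra.coeff_smul_apply, AddMonoidAlgebra.coeff_single, Finsupp.single_apply]
        split_ifs <;> simp
    ext x
    have h1 := hcoef r x
    rw [hr] at h1
    simpa using h1.symm
  have hsurj : ∀ c : commutator Γ, ∃ r, Ψ r = Additive.ofMul c := by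
    intro c
    have hc := commutator_le_closure_uu a b hgen hmet c.2
    have key : ∀ d ∈ Subgroup.closure (Set.range (uu a b)),
        ∃ (hd : d ∈ commutator Γ) (r : A2 →₀ ℤ), Ψ r = Additive.ofMul ⟨d, hd⟩ := by
      intro d hd
      induction hd using Subgroup.closure_induction with
      | mem x hx =>
        obtain ⟨y, rfl⟩ := hx
        refine ⟨huC y, Finsupp.single y 1, ?_⟩
        simp [Ψ]
      | one => exact ⟨(commutator Γ).one_mem, 0, by rw [map_zero]; rfl⟩
      | mul x y _ _ hx hy =>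
        obtain ⟨hx1, r, hr⟩ := hx
        obtain ⟨hy1, s, hs⟩ := hy
        exact ⟨(commutator Γ).mul_mem hx1 hy1, r + s, by rw [map_add, hr, hs]; rfl⟩
      | inv x _ hx =>
        obtain ⟨hx1, r, hr⟩ := hx
        exact ⟨(commutator Γ).inv_mem hx1, -r, by rw [map_neg, hr]; rfl⟩
    obtain ⟨_, r, hr⟩ := key c hc
    exact ⟨r, hr⟩
  -- now the element g
  obtain ⟨i, j, hij⟩ := exists_exponents a b hgen g
  have hk : (a ^ i * b ^ j)⁻¹ * g ∈ commutator Γ := by
    rw [← Abelianization.ker_of Γ, MonoidHom.mem_ker, map_mul, map_inv, hij, inv_mul_cancel]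
  have hlin : (i, j) = (0 : A2) := by
    have h1 := hlinC ⟨_, hk⟩
    have h2 := hpow (i, j)
    have h3 := hlinpow (i, j)
    simp only at h1 h2 h3
    rw [map_mul, map_inv, h2, hg, mul_one, Aff.inv_lin, h3] at h1
    exact neg_eq_zero.mp h1
  have hi : i = 0 := congrArg Prod.fst hlin
  have hj : j = 0 := congrArg Prod.snd hlin
  subst hi hj
  simp only [zpow_zero, mul_one, inv_one, one_mul] at hk
  obtain ⟨r, hr⟩ := hsurj ⟨g, hk⟩
  have h1 := hτΨ r
  rw [hr] at h1
  have h2 : τ (Additive.ofMul (⟨g, hk⟩ : commutator Γ)) = 0 := by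
    change (θ g).tr = 0
    rw [hg]; rfl
  rw [h2] at h1
  have h3 : r = 0 := hΛ r ((mul_eq_zero.mp h1.symm).resolve_right kap_ne_zero)
  rw [h3, map_zero] at hr
  exact congrArg Subtype.val (Additive.ofMul.injective hr.symm)

end Magnus

/-! ### The free metabelian group of rank two and its model -/

/-- The free metabelian group of rank two. -/
abbrev FreeMetabelian2 : Type := FreeGroup (Fin 2) ⧸ derivedSeries (FreeGroup (Fin 2)) 2

/-- The model: the group generated by `genP` and `genQ`. -/
noncomputable def Hmod : Subgroup AffA := Subgroup.closure {genP, genQ}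

/-- The map of the free group to the model. -/
noncomputable def theta0 : FreeGroup (Fin 2) →* AffA := FreeGroup.lift ![genP, genQ]

/-- The map of the free metabelian group to the model. -/
noncomputable def theta : FreeMetabelian2 →* AffA :=
  QuotientGroup.lift _ theta0 (by
    intro g hg
    have h1 : theta0 g ∈ derivedSeries AffA 2 :=
      map_derivedSeries_le_derivedSeries theta0 2 (Subgroup.mem_map_of_mem theta0 hg)
    rw [derived_two, Subgroup.mem_bot] at h1
    exact h1)

/-- generators of the free metabelian group -/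
def gen (i : Fin 2) : FreeMetabelian2 := QuotientGroup.mk (FreeGroup.of i)

lemma theta_gen0 : theta (gen 0) = genP := by
  change theta0 (FreeGroup.of 0) = genP
  simp [theta0]

lemma theta_gen1 : theta (gen 1) = genQ := by
  change theta0 (FreeGroup.of 1) = genQ
  simp [theta0]

lemma closure_gen : Subgroup.closure {gen 0, gen 1} = ⊤ := by
  have h1 := FreeGroup.closure_range_of (Fin 2)
  have h2 : Subgroup.map (QuotientGroup.mk' (derivedSeries (FreeGroup (Fin 2)) 2))
      (Subgroup.closure (Set.range FreeGroup.of)) = ⊤ := by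
    rw [h1, ← MonoidHom.range_eq_map, MonoidHom.range_eq_top]
    exact QuotientGroup.mk'_surjective _
  rw [MonoidHom.map_closure, ← Set.range_comp] at h2
  rw [← h2]
  congr 1
  ext x
  simp only [Set.mem_insert_iff, Set.mem_singleton_iff, Set.mem_range, Function.comp]
  constructor
  · rintro (rfl | rfl)
    · exact ⟨0, rfl⟩
    · exact ⟨1, rfl⟩
  · rintro ⟨i, rfl⟩
    fin_cases i
    · exact Or.inl rfl
    · exact Or.inr rfl

lemma derived_two_free : derivedSeries FreeMetabelian2 2 = ⊥ := by
  have h := map_derivedSeries_eq (f := QuotientGroup.mk' (derivedSeries (FreeGroup (Fin 2)) 2))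
    (QuotientGroup.mk'_surjective _) 2
  rw [← h, eq_bot_iff]
  rintro _ ⟨g, hg, rfl⟩
  rw [Subgroup.mem_bot]
  exact (QuotientGroup.eq_one_iff g).mpr hg

lemma theta_injective : Function.Injective theta := by
  apply magnus_injective (gen 0) (gen 1) closure_gen _ theta theta_gen0 theta_gen1
  intro c hc d hd
  have h1 : ⁅c, d⁆ ∈ ⁅commutator FreeMetabelian2, commutator FreeMetabelian2⁆ :=
    Subgroup.commutator_mem_commutator hc hd
  have h2 : derivedSeries FreeMetabelian2 2 =
      ⁅commutator FreeMetabelian2, commutator FreeMetabelian2⁆ := by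
    rw [derivedSeries_succ FreeMetabelian2 1, derivedSeries_one FreeMetabelian2]
  rw [← h2, derived_two_free, Subgroup.mem_bot] at h1
  exact commutatorElement_eq_one_iff_mul_comm.mp h1

lemma theta_range : theta.range = Hmod := by
  rw [MonoidHom.range_eq_map, ← closure_gen, MonoidHom.map_closure, Hmod]
  congr 1
  rw [Set.image_pair, theta_gen0, theta_gen1]

/-- The free metabelian group of rank two is isomorphic to the model. -/
noncomputable def thetaEquiv : FreeMetabelian2 ≃* Hmod :=
  (MonoidHom.ofInjective theta_injective).trans (MulEquiv.subgroupCongr theta_range)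

lemma genP_mem : genP ∈ Hmod := Subgroup.subset_closure (by simp)
lemma genQ_mem : genQ ∈ Hmod := Subgroup.subset_closure (by simp)

/-- The zero section of the affine group. -/
noncomputable def zeroHom {B V : Type} [AddCommGroup B] [AddCommGroup V] [Module (GR B) V] :
    Multiplicative B →* Aff B V where
  toFun b := ⟨b.toAdd, 0⟩
  map_one' := rfl
  map_mul' b c := by ext <;> simp

lemma genP_zpow (m : ℤ) : genP ^ m = ⟨(m, 0), 0⟩ := by
  have h1 : genP = zeroHom (Multiplicative.ofAdd ((1 : ℤ), (0 : ℤ))) := rfl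
  rw [h1, ← map_zpow]
  have h2 : (Multiplicative.ofAdd ((1 : ℤ), (0 : ℤ))) ^ m = Multiplicative.ofAdd ((m : ℤ), (0 : ℤ)) := by
    rw [← ofAdd_zsmul]
    simp
  rw [h2]
  rfl

/-- The translations by `kap * r` in the model. -/
lemma trans_one : (⟨0, kap * 1⟩ : AffA) ∈ Hmod := by
  rw [mul_one, ← comm_PQ, commutatorElement_def]
  exact Hmod.mul_mem (Hmod.mul_mem (Hmod.mul_mem genP_mem genQ_mem) (Hmod.inv_mem genP_mem))
    (Hmod.inv_mem genQ_mem)

lemma trans_zero : (⟨0, 0⟩ : AffA) ∈ Hmod := Hmod.one_mem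

lemma trans_add {r s : GR A2} (hr : (⟨0, kap * r⟩ : AffA) ∈ Hmod)
    (hs : (⟨0, kap * s⟩ : AffA) ∈ Hmod) : (⟨0, kap * (r + s)⟩ : AffA) ∈ Hmod := by
  have h := Hmod.mul_mem hr hs
  convert h using 1
  ext1
  · simp
  · simp [mon_zero, mul_add]

lemma trans_neg {r : GR A2} (hr : (⟨0, kap * r⟩ : AffA) ∈ Hmod) :
    (⟨0, kap * (-r)⟩ : AffA) ∈ Hmod := by
  have h := Hmod.inv_mem hr
  convert h using 1
  ext1
  · simp
  · simp [mon_zero]

lemma exists_lin (g : A2) : ∃ w ∈ Hmod, w.lin = g := by
  refine ⟨genP ^ g.1 * genQ ^ g.2, Hmod.mul_mem (Hmod.zpow_mem genP_mem _)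
    (Hmod.zpow_mem genQ_mem _), ?_⟩
  have : Aff.linHom (genP ^ g.1 * genQ ^ g.2) = Multiplicative.ofAdd g := by
    rw [map_mul, map_zpow, map_zpow]
    apply Multiplicative.toAdd.injective
    simp only [toAdd_mul, toAdd_zpow]
    change g.1 • ((1 : ℤ), (0 : ℤ)) + g.2 • ((0 : ℤ), (1 : ℤ)) = g
    ext <;> simp
  exact congrArg Multiplicative.toAdd this

lemma conj_trans {B V : Type} [AddCommGroup B] [AddCommGroup V] [Module (GR B) V]
    (w t : Aff B V) (ht : t.lin = 0) : w * t * w⁻¹ = ⟨0, mon w.lin • t.tr⟩ := by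
  ext1
  · simp [ht]
  · simp only [Aff.mul_tr, Aff.mul_lin, Aff.inv_tr, ht, add_zero, smul_neg, smul_smul]
    rw [← mon_add, add_neg_cancel, mon_zero, one_smul]
    abel

lemma trans_mon {r : GR A2} (g : A2) (hr : (⟨0, kap * r⟩ : AffA) ∈ Hmod) :
    (⟨0, kap * (mon g * r)⟩ : AffA) ∈ Hmod := by
  obtain ⟨w, hw, hwg⟩ := exists_lin g
  have h := Hmod.mul_mem (Hmod.mul_mem hw hr) (Hmod.inv_mem hw)
  rw [conj_trans _ _ rfl, hwg] at h
  convert h using 2
  rw [smul_eq_mul]
  ring

/-- The elements of the model have integral translation parts. -/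
lemma integral_of_mem {t : AffA} (ht : t ∈ Hmod) (x : A2) : ∃ k : ℤ, t.tr.coeff x = k := by
  unfold Hmod at ht
  induction ht using Subgroup.closure_induction generalizing x with
  | mem t ht =>
    rcases ht with rfl | rfl
    · exact ⟨0, by simp [genP]⟩
    · by_cases h : (0 : A2) = x
      · refine ⟨1, ?_⟩
        simp [genQ, AddMonoidAlgebra.one_def, h]
      · refine ⟨0, ?_⟩
        simp [genQ, AddMonoidAlgebra.one_def, h]
  | one => exact ⟨0, by simp⟩
  | mul s t _ _ hs ht =>
    obtain ⟨k, hk⟩ := hs x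
    obtain ⟨l, hl⟩ := ht (-s.lin + x)
    refine ⟨k + l, ?_⟩
    rw [Aff.mul_tr, AddMonoidAlgebra.coeff_add, Finsupp.add_apply, hk, smul_eq_mul,
      AddMonoidAlgebra.coeff_single_mul_apply, hl]
    push_cast
    ring
  | inv s _ hs =>
    obtain ⟨k, hk⟩ := hs (s.lin + x)
    refine ⟨-k, ?_⟩
    rw [Aff.inv_tr, AddMonoidAlgebra.coeff_neg, Finsupp.neg_apply, smul_eq_mul,
      AddMonoidAlgebra.coeff_single_mul_apply, neg_neg, hk]
    push_cast
    ring

/-! ### The counterexample group -/

/-- Exponent group of the linear parts of the counterexample: exponents of `x`, `y`, `z`. -/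
abbrev B3 : Type := ℤ × ℤ × ℤ

/-- Translation module of the counterexample. -/
abbrev V3 : Type := GR B3 × GR B3 × GR B3

/-- Ambient group of the counterexample. -/
abbrev AffB : Type := Aff B3 V3

/-- The map of exponents `x ↦ p`, `y ↦ q`, `z ↦ p ^ m`. -/
def sg (m : ℤ) : B3 →+ A2 where
  toFun b := (b.1 + m * b.2.2, b.2.1)
  map_zero' := by simp
  map_add' b c := by
    ext
    · simp only [Prod.fst_add, Prod.snd_add]; ring
    · simp

/-- The induced map of group rings. -/
noncomputable def sig (m : ℤ) : GR B3 →+* GR A2 := AddMonoidAlgebra.mapDomainRingHom ℚ (sg m)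

lemma sig_mon (m : ℤ) (b : B3) : sig m (mon b) = mon (sg m b) := by
  simp [sig, mon]

lemma sig_smul (m : ℤ) (c : ℚ) (v : GR B3) : sig m (c • v) = c • sig m v := by
  have : ∀ w : GR B3, c • w = AddMonoidAlgebra.single 0 c * w := by
    intro w
    ext x
    simp
  have h2 : ∀ w : GR A2, c • w = AddMonoidAlgebra.single 0 c * w := by
    intro w
    ext x
    simp
  rw [this, h2, map_mul]
  congr 1
  simp [sig]

/-- The translation part of the homomorphisms. -/
noncomputable def psi (m : ℤ) (c1 c2 : GR A2) : V3 →+ GR A2 where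
  toFun v := sig m v.1 + c1 * sig m v.2.1 + c2 * sig m v.2.2
  map_zero' := by simp
  map_add' v w := by
    simp only [Prod.fst_add, Prod.snd_add, map_add]
    ring

/-- The homomorphisms of the ambient groups. -/
noncomputable def ff (m : ℤ) (c1 c2 : GR A2) : AffB →* AffA :=
  Aff.map (sg m) (psi m c1 c2) (by
    intro b v
    simp only [psi, AddMonoidHom.coe_mk, ZeroHom.coe_mk, Prod.smul_fst, Prod.smul_snd, smul_eq_mul,
      map_mul, sig_mon]
    ring)

lemma ff_lin (m : ℤ) (c1 c2 : GR A2) (t : AffB) : (ff m c1 c2 t).lin = sg m t.lin := rfl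
lemma ff_tr (m : ℤ) (c1 c2 : GR A2) (t : AffB) : (ff m c1 c2 t).tr =
  sig m t.tr.1 + c1 * sig m t.tr.2.1 + c2 * sig m t.tr.2.2 := rfl

/-- Products of the elements `z x ^ (-(l+1) s) - 1`, `l < n`, where `s` is a sign. -/
noncomputable def pie (s : ℤ) (n : ℕ) : GR B3 :=
  ∏ l ∈ Finset.range n, (mon (-(s * (l + 1)), 0, 1) - 1)

lemma pie_succ (s : ℤ) (n : ℕ) :
    pie s (n + 1) = pie s n * (mon (-(s * (n + 1)), 0, 1) - 1) := by
  unfold pie
  rw [Finset.prod_range_succ]

/-- The generators of the divisibility modules. -/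
noncomputable def dv (s : ℤ) (n : ℕ) : GR B3 := ((1 : ℚ) / 2 ^ n) • pie s n

lemma dv_zero (s : ℤ) : dv s 0 = 1 := by
  simp [dv, pie]

lemma dv_rel (s : ℤ) (n : ℕ) :
    mon (-(s * (n + 1)), 0, 1) * dv s n = dv s n + (dv s (n + 1) + dv s (n + 1)) := by
  unfold dv
  rw [pie_succ]
  have h1 : ((1 : ℚ) / 2 ^ (n + 1)) • (pie s n * (mon (-(s * (n + 1)), 0, 1) - 1)) +
      ((1 : ℚ) / 2 ^ (n + 1)) • (pie s n * (mon (-(s * (n + 1)), 0, 1) - 1)) =
      ((1 : ℚ) / 2 ^ n) • (pie s n * (mon (-(s * (n + 1)), 0, 1) - 1)) := by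
    rw [← add_smul]
    congr 1
    rw [pow_succ]
    field_simp
    norm_num
  rw [h1, mul_smul_comm, ← smul_add]
  congr 1
  ring

noncomputable def gx : AffB := ⟨(1, 0, 0), 0⟩
noncomputable def gy : AffB := ⟨(0, 1, 0), (1, 0, 0)⟩
noncomputable def gz : AffB := ⟨(0, 0, 1), 0⟩
noncomputable def ge1 (n : ℕ) : AffB := ⟨0, (0, dv 1 n, 0)⟩
noncomputable def ge2 (n : ℕ) : AffB := ⟨0, (0, 0, dv (-1) n)⟩

/-- Generating set of the counterexample. -/
def gensT : Set AffB := {gx, gy, gz} ∪ (Set.range ge1 ∪ Set.range ge2)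

/-- The counterexample. -/
noncomputable def TT : Subgroup AffB := Subgroup.closure gensT

lemma gx_mem : gx ∈ TT := Subgroup.subset_closure (by simp [gensT])
lemma gy_mem : gy ∈ TT := Subgroup.subset_closure (by simp [gensT])
lemma gz_mem : gz ∈ TT := Subgroup.subset_closure (by simp [gensT])
lemma ge1_mem (n : ℕ) : ge1 n ∈ TT := Subgroup.subset_closure (Or.inr (Or.inl ⟨n, rfl⟩))
lemma ge2_mem (n : ℕ) : ge2 n ∈ TT := Subgroup.subset_closure (Or.inr (Or.inr ⟨n, rfl⟩))

lemma ff_gx (m : ℤ) (c1 c2 : GR A2) : ff m c1 c2 gx = genP := by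
  ext1
  · simp [ff_lin, gx, genP, sg]
  · simp [ff_tr, gx, genP]

lemma ff_gy (m : ℤ) (c1 c2 : GR A2) : ff m c1 c2 gy = genQ := by
  ext1
  · simp [ff_lin, gy, genQ, sg]
  · simp [ff_tr, gy, genQ]

lemma ff_gz (m : ℤ) (c1 c2 : GR A2) : ff m c1 c2 gz = genP ^ m := by
  rw [genP_zpow]
  ext1
  · simp [ff_lin, gz, sg]
  · simp [ff_tr, gz]

lemma ff_mem {m : ℤ} {c1 c2 : GR A2}
    (h1 : ∀ n, (⟨0, c1 * sig m (dv 1 n)⟩ : AffA) ∈ Hmod)
    (h2 : ∀ n, (⟨0, c2 * sig m (dv (-1) n)⟩ : AffA) ∈ Hmod) {t : AffB} (ht : t ∈ TT) :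
    ff m c1 c2 t ∈ Hmod := by
  unfold TT at ht
  induction ht using Subgroup.closure_induction with
  | mem x hx =>
    rcases hx with (rfl | rfl | rfl) | (⟨n, rfl⟩ | ⟨n, rfl⟩)
    · rw [ff_gx]; exact genP_mem
    · rw [ff_gy]; exact genQ_mem
    · rw [ff_gz]; exact Hmod.zpow_mem genP_mem m
    · have : ff m c1 c2 (ge1 n) = ⟨0, c1 * sig m (dv 1 n)⟩ := by
        ext1
        · simp [ff_lin, ge1]
        · simp [ff_tr, ge1]
      rw [this]; exact h1 n
    · have : ff m c1 c2 (ge2 n) = ⟨0, c2 * sig m (dv (-1) n)⟩ := by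
        ext1
        · simp [ff_lin, ge2]
        · simp [ff_tr, ge2]
      rw [this]; exact h2 n
  | one => rw [map_one]; exact Hmod.one_mem
  | mul x y _ _ hx hy => rw [map_mul]; exact Hmod.mul_mem hx hy
  | inv x _ hx => rw [map_inv]; exact Hmod.inv_mem hx

/-- The integrality of the images of the generators of the divisibility modules. -/
lemma dv_image (s : ℤ) (M n : ℕ) :
    (⟨0, (kap * (2 : ℚ) ^ (M + 1) • 1) * sig (s * (M + 1)) (dv s n)⟩ : AffA) ∈ Hmod := by
  have hsig : ∀ l : ℕ, sig (s * (M + 1)) (mon (-(s * (l + 1)), 0, 1) - 1) =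
      mon (s * M - s * l, 0) - 1 := by
    intro l
    rw [map_sub, map_one, sig_mon]
    congr 2
    simp only [sg, AddMonoidHom.coe_mk, ZeroHom.coe_mk]
    ext
    · simp only; ring
    · rfl
  have hpie : ∀ k : ℕ, sig (s * (M + 1)) (pie s k) =
      ∏ l ∈ Finset.range k, (mon (s * M - s * l, 0) - 1) := by
    intro k
    unfold pie
    rw [map_prod]
    exact Finset.prod_congr rfl (fun l _ => hsig l)
  have hint : ∀ (k : ℕ) (r : GR A2), (⟨0, kap * r⟩ : AffA) ∈ Hmod →
      (⟨0, kap * ((∏ l ∈ Finset.range k, (mon (s * M - s * l, 0) - 1)) * r)⟩ : AffA) ∈ Hmod := by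
    intro k
    induction k with
    | zero => intro r hr; simpa using hr
    | succ k ih =>
      intro r hr
      rw [Finset.prod_range_succ, mul_assoc]
      apply ih
      rw [sub_mul, one_mul, sub_eq_add_neg]
      exact trans_add (trans_mon _ hr) (trans_neg hr)
  by_cases hn : n ≤ M
  · have h2 : ∀ k : ℕ, (⟨0, kap * ((2 : ℚ) ^ k • 1)⟩ : AffA) ∈ Hmod := by
      intro k
      induction k with
      | zero => simpa using trans_one
      | succ k ih =>
        have := trans_add ih ih
        convert this using 3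
        rw [← add_smul, pow_succ]
        congr 1
        ring
    have h3 := hint n _ (h2 (M + 1 - n))
    convert h3 using 2
    unfold dv
    rw [sig_smul, hpie]
    simp only [mul_smul_comm, smul_mul_assoc, mul_one, smul_smul]
    congr 1
    have : (2 : ℚ) ^ (M + 1) = 2 ^ (M + 1 - n) * 2 ^ n := by
      rw [← pow_add]; congr 1; omega
    rw [this]
    field_simp
  · have h0 : sig (s * (M + 1)) (dv s n) = 0 := by
      unfold dv
      rw [sig_smul, hpie]
      have : ∏ l ∈ Finset.range n, (mon (s * (M : ℤ) - s * l, (0 : ℤ)) - 1) = 0 := by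
        apply Finset.prod_eq_zero (i := M) (Finset.mem_range.mpr (by omega))
        rw [sub_self]
        exact sub_self _
      rw [this, smul_zero]
    rw [h0, mul_zero]
    exact trans_zero

/-- For large parameter the maps of group rings do not kill a given element. -/
lemma sig_ne_zero {v : GR B3} (hv : v ≠ 0) : ∃ M : ℕ, ∀ m : ℤ, (M : ℤ) ≤ |m| → sig m v ≠ 0 := by
  let D : ℤ := ∑ b ∈ v.coeff.support, |b.1|
  have hD : ∀ b ∈ v.coeff.support, |b.1| ≤ D := fun b hb =>
    Finset.single_le_sum (f := fun b : B3 => |b.1|) (fun _ _ => abs_nonneg _) hb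
  have hD0 : 0 ≤ D := Finset.sum_nonneg (fun _ _ => abs_nonneg _)
  refine ⟨(2 * D + 1).toNat, ?_⟩
  intro m hm h0
  have hm' : 2 * D + 1 ≤ |m| := by
    rw [Int.toNat_of_nonneg (by linarith)] at hm
    exact hm
  have hinj : Set.InjOn (sg m) (v.coeff.support : Set B3) := by
    intro b hb c hc hbc
    have hb' := hD b hb
    have hc' := hD c hc
    simp only [sg, AddMonoidHom.coe_mk, ZeroHom.coe_mk, Prod.mk.injEq] at hbc
    obtain ⟨h1, h2⟩ := hbc
    by_cases h3 : b.2.2 = c.2.2
    · rw [h3] at h1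
      have h4 : b.1 = c.1 := by linarith
      exact Prod.ext h4 (Prod.ext h2 h3)
    · exfalso
      have h4 : |m| * |b.2.2 - c.2.2| = |c.1 - b.1| := by
        rw [← abs_mul]
        congr 1
        linarith
      have h5 : 1 ≤ |b.2.2 - c.2.2| := Int.one_le_abs (sub_ne_zero.mpr h3)
      have h6 : |c.1 - b.1| ≤ |c.1| + |b.1| := abs_sub _ _
      nlinarith [abs_nonneg m]
  have h1 := Finsupp.mapDomain_injOn (M := ℚ) (v.coeff.support : Set B3) hinj
  have h2 : Finsupp.mapDomain (sg m) v.coeff = Finsupp.mapDomain (sg m) 0 := by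
    rw [Finsupp.mapDomain_zero]
    have : (sig m v).coeff = 0 := by rw [h0]; rfl
    exact this
  have h3 := h1 (by simp) (by simp) h2
  exact hv (AddMonoidAlgebra.coeff_eq_zero.mp h3)

/-! ### Surjections of the counterexample onto the free metabelian group -/

/-- The homomorphism of the counterexample to the free metabelian group induced by `ff`. -/
noncomputable def toFM (m : ℤ) (c1 c2 : GR A2) (h : ∀ t ∈ TT, ff m c1 c2 t ∈ Hmod) :
    TT →* FreeMetabelian2 :=
  thetaEquiv.symm.toMonoidHom.comp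
    (((ff m c1 c2).comp TT.subtype).codRestrict Hmod (fun t => h t t.2))

lemma toFM_surjective (m : ℤ) (c1 c2 : GR A2) (h : ∀ t ∈ TT, ff m c1 c2 t ∈ Hmod) :
    Function.Surjective (toFM m c1 c2 h) := by
  have h1 : Hmod ≤ ((ff m c1 c2).comp TT.subtype).range := by
    unfold Hmod
    rw [Subgroup.closure_le]
    intro x hx
    rcases hx with rfl | rfl
    · exact ⟨⟨gx, gx_mem⟩, ff_gx m c1 c2⟩
    · exact ⟨⟨gy, gy_mem⟩, ff_gy m c1 c2⟩
  intro y
  obtain ⟨t, ht⟩ := h1 (thetaEquiv y).2
  refine ⟨t, ?_⟩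
  have h2 : (((ff m c1 c2).comp TT.subtype).codRestrict Hmod (fun t => h t t.2)) t =
      thetaEquiv y := Subtype.ext ht
  change thetaEquiv.symm ((((ff m c1 c2).comp TT.subtype).codRestrict Hmod _) t) = y
  rw [h2, MulEquiv.symm_apply_apply]

lemma toFM_ne_one {m : ℤ} {c1 c2 : GR A2} (h : ∀ t ∈ TT, ff m c1 c2 t ∈ Hmod) {t : TT}
    (ht : ff m c1 c2 t ≠ 1) : toFM m c1 c2 h t ≠ 1 := by
  intro h1
  apply ht
  have h2 : thetaEquiv.symm
      ((((ff m c1 c2).comp TT.subtype).codRestrict Hmod (fun t => h t t.2)) t) = 1 := h1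
  rw [MulEquiv.map_eq_one_iff] at h2
  exact congrArg Subtype.val h2

/-- Every nontrivial element of the counterexample survives under some surjection onto the free
metabelian group of rank two. -/
lemma exists_surjection (t : TT) (ht : t ≠ 1) :
    ∃ f : TT →* FreeMetabelian2, Function.Surjective f ∧ f t ≠ 1 := by
  have hz : ∀ (n : ℕ) (m : ℤ) (s : ℤ), (⟨0, (0 : GR A2) * sig m (dv s n)⟩ : AffA) ∈ Hmod := by
    intro n m s
    rw [zero_mul]; exact trans_zero
  have hz0 : ∀ m : ℤ, ∀ t ∈ TT, ff m 0 0 t ∈ Hmod := fun m t ht =>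
    ff_mem (fun n => hz n m 1) (fun n => hz n m (-1)) ht
  by_cases hl : (t : AffB).lin = 0
  · by_cases h0 : (t : AffB).tr.1 = 0
    · by_cases h1 : (t : AffB).tr.2.1 = 0
      · -- the third component is nonzero
        have h2 : (t : AffB).tr.2.2 ≠ 0 := by
          intro h2
          apply ht
          apply Subtype.ext
          ext1
          · exact hl
          · exact Prod.ext h0 (Prod.ext h1 h2)
        obtain ⟨M, hM⟩ := sig_ne_zero h2
        have hc : ∀ t ∈ TT, ff (-1 * (M + 1)) 0 (kap * (2 : ℚ) ^ (M + 1) • 1) t ∈ Hmod :=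
          fun t ht => ff_mem (fun n => hz n _ 1) (fun n => dv_image (-1) M n) ht
        refine ⟨toFM _ _ _ hc, toFM_surjective _ _ _ hc, toFM_ne_one hc ?_⟩
        intro h3
        have h4 := congrArg Aff.tr h3
        rw [ff_tr, h0, h1, map_zero, zero_mul, zero_add, zero_add, Aff.one_tr] at h4
        have h5 : sig (-1 * (M + 1)) (t : AffB).tr.2.2 ≠ 0 := hM _ (by
          rw [neg_one_mul, abs_neg, abs_of_nonneg (by positivity)]
          linarith)
        rcases mul_eq_zero.mp h4 with h6 | h6
        · rcases mul_eq_zero.mp h6 with h7 | h7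
          · exact kap_ne_zero h7
          · rw [smul_eq_zero] at h7
            rcases h7 with h8 | h8
            · exact (pow_ne_zero (M + 1) (two_ne_zero (α := ℚ))) h8
            · exact one_ne_zero h8
        · exact h5 h6
      · obtain ⟨M, hM⟩ := sig_ne_zero h1
        have hc : ∀ t ∈ TT, ff (1 * (M + 1)) (kap * (2 : ℚ) ^ (M + 1) • 1) 0 t ∈ Hmod :=
          fun t ht => ff_mem (fun n => dv_image 1 M n) (fun n => hz n _ (-1)) ht
        refine ⟨toFM _ _ _ hc, toFM_surjective _ _ _ hc, toFM_ne_one hc ?_⟩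
        intro h3
        have h4 := congrArg Aff.tr h3
        rw [ff_tr, h0, map_zero, zero_mul, zero_add, add_zero, Aff.one_tr] at h4
        have h5 : sig (1 * (M + 1)) (t : AffB).tr.2.1 ≠ 0 := hM _ (by
          rw [one_mul, abs_of_nonneg (by positivity)]
          linarith)
        rcases mul_eq_zero.mp h4 with h6 | h6
        · rcases mul_eq_zero.mp h6 with h7 | h7
          · exact kap_ne_zero h7
          · rw [smul_eq_zero] at h7
            rcases h7 with h8 | h8
            · exact (pow_ne_zero (M + 1) (two_ne_zero (α := ℚ))) h8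
            · exact one_ne_zero h8
        · exact h5 h6
    · obtain ⟨M, hM⟩ := sig_ne_zero h0
      refine ⟨toFM M 0 0 (hz0 M), toFM_surjective _ _ _ _, toFM_ne_one _ ?_⟩
      intro h3
      have h4 := congrArg Aff.tr h3
      rw [ff_tr, zero_mul, zero_mul, add_zero, add_zero, Aff.one_tr] at h4
      exact hM M (le_abs_self _) h4
  · -- the linear part is nontrivial
    have key : ∃ m : ℤ, sg m (t : AffB).lin ≠ 0 := by
      by_contra hcon
      push Not at hcon
      have h1 := hcon 1
      have h2 := hcon 2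
      simp only [sg, AddMonoidHom.coe_mk, ZeroHom.coe_mk, Prod.mk_eq_zero] at h1 h2
      apply hl
      have h3 : (t : AffB).lin.2.2 = 0 := by linarith [h1.1, h2.1]
      have h4 : (t : AffB).lin.1 = 0 := by
        have := h1.1
        rw [h3] at this
        linarith
      exact Prod.ext h4 (Prod.ext h1.2 h3)
    obtain ⟨m, hm⟩ := key
    refine ⟨toFM m 0 0 (hz0 m), toFM_surjective _ _ _ _, toFM_ne_one _ ?_⟩
    intro h3
    exact hm (congrArg Aff.lin h3)

/-! ### No surjection keeps both test elements -/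

/-- An element of finite support which satisfies all the divisibility relations vanishes. -/
lemma vanish (ε : ℕ → GR A2) (g : ℕ → A2) (hg : ∀ n, g n ≠ 0)
    (hint : ∀ n x, ∃ k : ℤ, (ε n).coeff x = k)
    (hrel : ∀ n, mon (g n) * ε n = ε n + (ε (n + 1) + ε (n + 1))) : ε 0 = 0 := by
  choose c hc using hint
  have hstep : ∀ n x, c n (-g n + x) = c n x + (c (n + 1) x + c (n + 1) x) := by
    intro n x
    have h1 := congrArg (fun v : GR A2 => v.coeff x) (hrel n)
    simp only [AddMonoidAlgebra.coeff_single_mul_apply, AddMonoidAlgebra.coeff_add,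
      Finsupp.add_apply, hc, one_mul] at h1
    exact_mod_cast h1
  have hdvd : ∀ k n x, (2 : ℤ) ^ k ∣ c n x := by
    intro k
    induction k with
    | zero => intro n x; simp
    | succ k ih =>
      intro n x
      have h1 : ∀ y, (2 : ℤ) ^ (k + 1) ∣ c n (-g n + y) - c n y := by
        intro y
        rw [hstep n y]
        obtain ⟨d, hd⟩ := ih (n + 1) y
        exact ⟨d, by rw [hd]; ring⟩
      have h2 : ∀ j : ℕ, (2 : ℤ) ^ (k + 1) ∣ c n (j • (-g n) + x) - c n x := by
        intro j
        induction j with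
        | zero => simp
        | succ j ihj =>
          have h3 := dvd_add (h1 (j • (-g n) + x)) ihj
          have h4 : -g n + (j • (-g n) + x) = (j + 1) • (-g n) + x := by
            rw [succ_nsmul]; abel
          rw [h4] at h3
          have h5 : c n ((j + 1) • (-g n) + x) - c n x =
              (c n ((j + 1) • (-g n) + x) - c n (j • (-g n) + x)) +
                (c n (j • (-g n) + x) - c n x) := by ring
          rw [h5]
          exact h3
      -- for large `j` the coefficient vanishes
      have hinj : Function.Injective (fun j : ℕ => j • (-g n) + x) := by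
        intro i j hij
        simp only [add_left_inj] at hij
        by_contra hne
        have h5 : ((i : ℤ) - (j : ℤ)) • (-g n) = 0 := by
          rw [sub_smul, natCast_zsmul, natCast_zsmul, hij, sub_self]
        rcases smul_eq_zero.mp h5 with h6 | h6
        · apply hne
          have : (i : ℤ) = j := sub_eq_zero.mp h6
          exact_mod_cast this
        · exact hg n (neg_eq_zero.mp h6)
      obtain ⟨j, hj⟩ := Infinite.exists_notMem_finset
        ((ε n).coeff.support.preimage _ (hinj.injOn))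
      rw [Finset.mem_preimage, Finsupp.notMem_support_iff, hc] at hj
      have hj' : c n (j • (-g n) + x) = 0 := by exact_mod_cast hj
      have h7 := h2 j
      rw [hj', zero_sub, dvd_neg] at h7
      exact h7
  ext x
  rw [hc]
  have h0 : c 0 x = 0 := by
    by_contra hne
    have h1 : 0 < |c 0 x| := abs_pos.mpr hne
    obtain ⟨d, hd⟩ := hdvd (c 0 x).natAbs 0 x
    have h2 : (2 : ℤ) ^ (c 0 x).natAbs ≤ |c 0 x| := by
      apply Int.le_of_dvd h1
      rw [dvd_abs]
      exact ⟨d, hd⟩
    have h3 : (c 0 x).natAbs < 2 ^ (c 0 x).natAbs := Nat.lt_two_pow_self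
    have h4 : ((c 0 x).natAbs : ℤ) < 2 ^ (c 0 x).natAbs := by exact_mod_cast h3
    rw [Int.natCast_natAbs] at h4
    linarith
  rw [h0]
  simp

/-- No surjective homomorphism keeps both test elements alive. -/
lemma no_both (F : TT →* FreeMetabelian2) (hF : Function.Surjective F) :
    F ⟨ge1 0, ge1_mem 0⟩ = 1 ∨ F ⟨ge2 0, ge2_mem 0⟩ = 1 := by
  set F' : TT →* AffA := theta.comp F with hF'
  have hrange : ∀ y ∈ Hmod, ∃ t, F' t = y := by
    intro y hy
    rw [← theta_range] at hy
    obtain ⟨w, rfl⟩ := hy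
    obtain ⟨t, rfl⟩ := hF w
    exact ⟨t, rfl⟩
  have hmem : ∀ t, F' t ∈ Hmod := by
    intro t
    rw [← theta_range]
    exact ⟨F t, rfl⟩
  -- translations go to translations
  have hlin0 : ∀ t : TT, (t : AffB).lin = 0 → (F' t).lin = 0 := by
    intro t ht
    by_contra ha
    obtain ⟨s, hs⟩ := hrange ⟨0, kap * 1⟩ trans_one
    have hc : t * (t * s * t⁻¹ * s⁻¹) = (t * s * t⁻¹ * s⁻¹) * t := by
      apply Subtype.ext
      apply Aff.comm_of_lin_zero ht
      simp [ht]
    have h1 := congrArg F' hc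
    simp only [map_mul, map_inv, hs] at h1
    rw [Aff.comm_iff] at h1
    have h2 : (F' t * ⟨0, kap * 1⟩ * (F' t)⁻¹ * (⟨0, kap * 1⟩ : AffA)⁻¹).lin = 0 := by
      simp
    have h3 : (F' t * ⟨0, kap * 1⟩ * (F' t)⁻¹ * (⟨0, kap * 1⟩ : AffA)⁻¹).tr =
        (mon (F' t).lin - 1) * kap := by
      rw [conj_trans _ _ rfl]
      simp only [Aff.mul_tr, Aff.inv_tr, mon_zero, smul_eq_mul, mul_one, neg_zero]
      ring
    rw [h2, h3, mon_zero, sub_self, zero_smul, smul_eq_mul] at h1
    have h4 := mon_sub_one_ne_zero ha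
    rcases mul_eq_zero.mp h1 with h5 | h5
    · exact h4 h5
    · rcases mul_eq_zero.mp h5 with h6 | h6
      · exact h4 h6
      · exact kap_ne_zero h6
  set α : A2 := (F' ⟨gx, gx_mem⟩).lin with hα
  set β : A2 := (F' ⟨gy, gy_mem⟩).lin with hβ
  set γ : A2 := (F' ⟨gz, gz_mem⟩).lin with hγ
  -- the general vanishing argument
  have hkill : ∀ (s : ℤ) (ge : ℕ → TT) (hge : ∀ n, ((ge n : TT) : AffB).lin = 0)
      (hrel : ∀ n : ℕ, (⟨gz, gz_mem⟩ * (⟨gx, gx_mem⟩ : TT) ^ (-(s * (n + 1)))) * ge n *
        (⟨gz, gz_mem⟩ * (⟨gx, gx_mem⟩ : TT) ^ (-(s * (n + 1))))⁻¹ =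
        ge n * (ge (n + 1) * ge (n + 1)))
      (hg : ∀ n : ℕ, γ + (-(s * (n + 1))) • α ≠ 0), F' (ge 0) = 1 := by
    intro s ge hge hrel hg
    have h0 := vanish (fun n => (F' (ge n)).tr) (fun n => γ + (-(s * (n + 1))) • α) hg
      (fun n x => integral_of_mem (hmem _) x) (by
        intro n
        have h1 := congrArg F' (hrel n)
        rw [map_mul, map_mul, map_inv, conj_trans _ _ (hlin0 _ (hge n))] at h1
        have h2 := congrArg Aff.tr h1
        rw [map_mul, map_mul, map_mul, map_zpow] at h2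
        simp only [Aff.mul_tr, Aff.mul_lin, hlin0 _ (hge _), mon_zero, smul_eq_mul] at h2
        have h3 : (F' ⟨gx, gx_mem⟩ ^ (-(s * ((n : ℤ) + 1)))).lin = (-(s * (n + 1))) • α := by
          have : Aff.linHom (F' ⟨gx, gx_mem⟩ ^ (-(s * ((n : ℤ) + 1)))) =
              (Multiplicative.ofAdd α) ^ (-(s * ((n : ℤ) + 1))) := by
            rw [map_zpow]; rfl
          have h4 := congrArg Multiplicative.toAdd this
          rw [toAdd_zpow] at h4
          exact h4
        rw [h3] at h2
        simp only [one_mul] at h2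
        exact h2)
    ext1
    · exact hlin0 _ (hge 0)
    · exact h0
  -- relations in the group
  have hxpow : ∀ m : ℤ, (gx : AffB) ^ m = ⟨(m, 0, 0), 0⟩ := by
    intro m
    have h1 : gx = zeroHom (Multiplicative.ofAdd ((1 : ℤ), (0 : ℤ), (0 : ℤ))) := rfl
    rw [h1, ← map_zpow]
    have h2 : (Multiplicative.ofAdd ((1 : ℤ), (0 : ℤ), (0 : ℤ))) ^ m =
        Multiplicative.ofAdd ((m : ℤ), (0 : ℤ), (0 : ℤ)) := by
      rw [← ofAdd_zsmul]
      simp
    rw [h2]
    rfl
  have hrel1 : ∀ n : ℕ, (⟨gz, gz_mem⟩ * (⟨gx, gx_mem⟩ : TT) ^ (-((1 : ℤ) * (n + 1)))) *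
      ⟨ge1 n, ge1_mem n⟩ * (⟨gz, gz_mem⟩ * (⟨gx, gx_mem⟩ : TT) ^ (-((1 : ℤ) * (n + 1))))⁻¹ =
        (⟨ge1 n, ge1_mem n⟩ : TT) * (⟨ge1 (n + 1), ge1_mem (n + 1)⟩ *
          ⟨ge1 (n + 1), ge1_mem (n + 1)⟩) := by
    intro n
    apply Subtype.ext
    change (gz * gx ^ (-((1 : ℤ) * (n + 1)))) * ge1 n * (gz * gx ^ (-((1 : ℤ) * (n + 1))))⁻¹ =
      ge1 n * (ge1 (n + 1) * ge1 (n + 1))
    rw [conj_trans _ _ rfl, hxpow]
    ext1
    · simp [ge1]
    · have h1 := dv_rel 1 n
      simp only [ge1, gz, Aff.mul_lin, Aff.mul_tr, mon_zero, one_smul, Prod.smul_mk,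
        smul_eq_mul, Prod.mk_add_mk, add_zero, zero_add, mul_zero]
      rw [← h1]
  have hrel2 : ∀ n : ℕ, (⟨gz, gz_mem⟩ * (⟨gx, gx_mem⟩ : TT) ^ (-((-1 : ℤ) * (n + 1)))) *
      ⟨ge2 n, ge2_mem n⟩ * (⟨gz, gz_mem⟩ * (⟨gx, gx_mem⟩ : TT) ^ (-((-1 : ℤ) * (n + 1))))⁻¹ =
        (⟨ge2 n, ge2_mem n⟩ : TT) * (⟨ge2 (n + 1), ge2_mem (n + 1)⟩ *
          ⟨ge2 (n + 1), ge2_mem (n + 1)⟩) := by
    intro n
    apply Subtype.ext
    change (gz * gx ^ (-((-1 : ℤ) * (n + 1)))) * ge2 n *
      (gz * gx ^ (-((-1 : ℤ) * (n + 1))))⁻¹ = ge2 n * (ge2 (n + 1) * ge2 (n + 1))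
    rw [conj_trans _ _ rfl, hxpow]
    ext1
    · simp [ge2]
    · have h1 := dv_rel (-1) n
      simp only [ge2, gz, Aff.mul_lin, Aff.mul_tr, mon_zero, one_smul, Prod.smul_mk,
        smul_eq_mul, Prod.mk_add_mk, add_zero, zero_add, mul_zero]
      rw [← h1]
  have hfin : ∀ t : TT, F' t = 1 → F t = 1 := by
    intro t ht
    apply theta_injective
    rw [map_one]
    exact ht
  by_cases c1 : ∀ n : ℕ, γ + (-((1 : ℤ) * (n + 1))) • α ≠ 0
  · left
    apply hfin
    exact hkill 1 (fun n => ⟨ge1 n, ge1_mem n⟩) (fun n => rfl) hrel1 c1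
  by_cases c2 : ∀ n : ℕ, γ + (-((-1 : ℤ) * (n + 1))) • α ≠ 0
  · right
    apply hfin
    exact hkill (-1) (fun n => ⟨ge2 n, ge2_mem n⟩) (fun n => rfl) hrel2 c2
  exfalso
  push Not at c1 c2
  obtain ⟨n, hn⟩ := c1
  obtain ⟨n', hn'⟩ := c2
  have hα0 : α = 0 := by
    have h1 : ((n : ℤ) + 1 + (n' + 1)) • α = 0 := by
      have h2 := sub_eq_zero.mpr (hn'.trans hn.symm)
      rw [← h2]
      simp only [neg_smul, one_mul, neg_mul, add_smul]
      abel
    rcases smul_eq_zero.mp h1 with h2 | h2
    · exfalso; linarith [Int.natCast_nonneg n, Int.natCast_nonneg n']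
    · exact h2
  have hγ0 : γ = 0 := by
    rw [hα0, smul_zero, add_zero] at hn
    exact hn
  have hcyc : ∀ t (ht : t ∈ TT), ∃ k : ℤ, (F' ⟨t, ht⟩).lin = k • β := by
    intro t ht
    unfold TT at ht
    induction ht using Subgroup.closure_induction with
    | mem x hx =>
      rcases hx with (rfl | rfl | rfl) | (⟨n, rfl⟩ | ⟨n, rfl⟩)
      · exact ⟨0, by rw [zero_smul]; exact hα0⟩
      · exact ⟨1, by rw [one_smul]⟩
      · exact ⟨0, by rw [zero_smul]; exact hγ0⟩
      · exact ⟨0, by rw [zero_smul]; exact hlin0 _ rfl⟩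
      · exact ⟨0, by rw [zero_smul]; exact hlin0 _ rfl⟩
    | one =>
      refine ⟨0, ?_⟩
      rw [zero_smul]
      exact hlin0 _ rfl
    | mul x y hx' hy' hx hy =>
      obtain ⟨k, hk⟩ := hx
      obtain ⟨l, hl⟩ := hy
      refine ⟨k + l, ?_⟩
      have : (⟨x * y, mul_mem hx' hy'⟩ : TT) = ⟨x, hx'⟩ * ⟨y, hy'⟩ := rfl
      rw [this, map_mul, Aff.mul_lin, hk, hl, add_smul]
    | inv x hx' hx =>
      obtain ⟨k, hk⟩ := hx
      refine ⟨-k, ?_⟩
      have : (⟨x⁻¹, inv_mem hx'⟩ : TT) = ⟨x, hx'⟩⁻¹ := rfl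
      rw [this, map_inv, Aff.inv_lin, hk, neg_smul]
  obtain ⟨⟨t, ht⟩, h1⟩ := hrange _ genP_mem
  obtain ⟨⟨t', ht'⟩, h2⟩ := hrange _ genQ_mem
  obtain ⟨k, hk⟩ := hcyc t ht
  obtain ⟨l, hl⟩ := hcyc t' ht'
  rw [h1] at hk
  rw [h2] at hl
  have hk1 := congrArg Prod.fst hk
  have hk2 := congrArg Prod.snd hk
  have hl1 := congrArg Prod.fst hl
  have hl2 := congrArg Prod.snd hl
  simp only [genP, genQ, Prod.smul_fst, Prod.smul_snd, smul_eq_mul] at hk1 hk2 hl1 hl2
  have hk0 : k ≠ 0 := by
    intro h; rw [h] at hk1; simp at hk1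
  have hb2 : β.2 = 0 := by
    rcases mul_eq_zero.mp hk2.symm with h | h
    · exact absurd h hk0
    · exact h
  rw [hb2, mul_zero] at hl2
  exact one_ne_zero hl2

/-! ### The result -/

lemma V3_torsion_free (b : B3) (v : V3) (hb : b ≠ 0) (h : (mon b - 1) • v = 0) : v = 0 := by
  have h1 := mon_sub_one_ne_zero hb
  have h2 := congrArg Prod.fst h
  have h3 := congrArg (fun w : V3 => w.2.1) h
  have h4 := congrArg (fun w : V3 => w.2.2) h
  simp only [Prod.smul_fst, Prod.smul_snd, smul_eq_mul, Prod.fst_zero, Prod.snd_zero,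
    mul_eq_zero] at h2 h3 h4
  exact Prod.ext (h2.resolve_left h1) (Prod.ext (h3.resolve_left h1) (h4.resolve_left h1))

/-- There is a metabelian group `T` in which every nontrivial element has abelian centralizer,
with a separating set of surjections onto the free metabelian group of rank two, but with no
discriminating set of such surjections. -/
theorem result : ∃ (T : Type) (_ : Group T),
    derivedSeries T 2 = ⊥ ∧
    (∀ t : T, t ≠ 1 → ∀ a ∈ Subgroup.centralizer {t}, ∀ b ∈ Subgroup.centralizer {t},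
      a * b = b * a) ∧
    (∃ F : Set (T →* (FreeGroup (Fin 2) ⧸ derivedSeries (FreeGroup (Fin 2)) 2)),
      (∀ f ∈ F, Function.Surjective f) ∧ IsSeparating F) ∧
    ¬ ∃ F : Set (T →* (FreeGroup (Fin 2) ⧸ derivedSeries (FreeGroup (Fin 2)) 2)),
      (∀ f ∈ F, Function.Surjective f) ∧ IsDiscriminating F := by
  refine ⟨TT, inferInstance, ?_, ?_, ?_, ?_⟩
  · exact derived_two_of_injective TT.subtype TT.subtype_injective
  · intro t ht a ha b hb
    rw [Subgroup.mem_centralizer_singleton_iff] at ha hb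
    apply Subtype.ext
    apply Aff.comm_trans (t := (t : AffB)) V3_torsion_free
    · intro h
      exact ht (Subtype.ext h)
    · exact (congrArg Subtype.val ha).symm
    · exact (congrArg Subtype.val hb).symm
  · refine ⟨{f | Function.Surjective f}, fun f hf => hf, ?_⟩
    intro t ht
    obtain ⟨f, hf, hft⟩ := exists_surjection t ht
    exact ⟨f, hf, hft⟩
  · rintro ⟨F, hF, hdisc⟩
    classical
    obtain ⟨f, hf, hft⟩ := hdisc {⟨ge1 0, ge1_mem 0⟩, ⟨ge2 0, ge2_mem 0⟩} (by
      intro a ha
      rw [Finset.mem_insert, Finset.mem_singleton] at ha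
      rcases ha with rfl | rfl
      · intro h
        have h1 : ge1 0 = 1 := congrArg Subtype.val h
        have h2 := congrArg (fun w : AffB => w.tr.2.1) h1
        simp only [ge1, dv_zero] at h2
        exact one_ne_zero h2
      · intro h
        have h1 : ge2 0 = 1 := congrArg Subtype.val h
        have h2 := congrArg (fun w : AffB => w.tr.2.2) h1
        simp only [ge2, dv_zero] at h2
        exact one_ne_zero h2)
    rcases no_both f (hF f hf) with h | h
    · exact hft _ (by simp) h
    · exact hft _ (by simp) h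

end Pool.Agent.Results.MP_2b96c2_al.SeparatingNotDiscriminating
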